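import Mathlib

namespace Pool.Agent.H.MP_8487d8_lc
open Finset SimpleGraph

section graph
variable {V I : Type} (ed : I → Sym2 V)

theorem forest_card [Fintype V] (hinj : Function.Injective ed) (hd : ∀ i, ¬ (ed i).IsDiag)
    (F : Finset I) (hF : (fromEdgeSet (ed '' (F : Set I))).IsAcyclic) (S : Finset V)
    (hS : S.Nonempty) (hmem : ∀ i ∈ F, ∀ v ∈ ed i, v ∈ S) : F.card + 1 ≤ S.card := by
  classical
  have : Nonempty (S : Set V) := ⟨⟨hS.choose, hS.choose_spec⟩⟩
  obtain ⟨T, hT, -, hT'⟩ := (connected_top (V := (S : Set V))).exists_isTree_le_of_le_of_isAcyclic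
    le_top (hF.induce (S : Set V))
  have h1 := hT'.card_edgeFinset
  have h2 : F.image ed ⊆ T.edgeFinset.image (Sym2.map Subtype.val) := by
    intro e he
    obtain ⟨i, hi, rfl⟩ := mem_image.mp he
    have h3 := hmem i hi
    have h4 := hd i
    have h5 : ed i ∈ ed '' (F : Set I) := ⟨i, hi, rfl⟩
    generalize ed i = e at h3 h4 h5
    induction e using Sym2.ind with
    | _ x y =>
      refine mem_image.mpr ⟨s(⟨x, h3 x (by simp)⟩, ⟨y, h3 y (by simp)⟩), ?_, by simp⟩
      rw [mem_edgeFinset, mem_edgeSet]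
      apply hT
      simp only [comap_adj, Function.Embedding.coe_subtype, fromEdgeSet_adj]
      exact ⟨h5, by simpa using h4⟩
  have h6 := (card_le_card h2).trans card_image_le
  rw [card_image_of_injective _ hinj] at h6
  have h7 : Fintype.card (S : Set V) = S.card := by simp
  omega

theorem ins_acyclic [DecidableEq I] (F : Finset I) (i : I) (x y : V) (hi : ed i = s(x, y))
    (hF : (fromEdgeSet (ed '' (F : Set I))).IsAcyclic)
    (h : ¬ (fromEdgeSet (ed '' (F : Set I))).Reachable x y) :
    (fromEdgeSet (ed '' ((insert i F : Finset I) : Set I))).IsAcyclic := by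
  have := hF.sup_edge_of_not_reachable h
  refine this.anti (le_of_eq ?_)
  rw [coe_insert, Set.image_insert_eq, hi, Set.insert_eq, fromEdgeSet_union, sup_comm]
  rfl

theorem closed (A : Set I) (C : Set V) (hC : ∀ i ∈ A, ∀ x y, ed i = s(x, y) → x ∈ C → y ∈ C)
    {x y : V} (h : (fromEdgeSet (ed '' A)).Reachable x y) (hx : x ∈ C) : y ∈ C := by
  obtain ⟨w⟩ := h
  induction w with
  | nil => exact hx
  | cons h _ ih =>
    obtain ⟨⟨i, hi, e⟩, -⟩ := (fromEdgeSet_adj _).mp h
    exact ih (hC i hi _ _ e hx)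

theorem parent_acyclic [DecidableEq I] (x y : I → V) (lev : V → ℕ) (he : ∀ i, ed i = s(x i, y i))
    (hl : ∀ i, lev (y i) < lev (x i)) (F : Finset I) (hx : Set.InjOn x F) :
    (fromEdgeSet (ed '' (F : Set I))).IsAcyclic := by
  induction F using Finset.induction_on_max_value (fun i => lev (x i)) with
  | empty => simp
  | insert i F hi hm ih =>
    apply ins_acyclic ed F i _ _ (he i) (ih (hx.mono (by simp)))
    intro h
    have := closed ed F {x i} (by
      intro j hj u v e hu
      exfalso
      rw [he j] at e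
      have hu' : u = x i := hu
      subst hu'
      rcases Sym2.eq_iff.mp e with ⟨h1, -⟩ | ⟨-, h1⟩
      · have : j = i := hx (by simp [show j ∈ F from hj]) (by simp) h1
        exact hi (this ▸ hj)
      · have a1 := hm j hj
        have a2 := hl j
        rw [h1] at a2
        omega) h rfl
    have h2 : y i = x i := this
    have h3 := hl i
    rw [h2] at h3
    omega

open Classical in
noncomputable def st (P : I → Prop) (acc : Finset I) (i : I) : Finset I :=
  if P i ∧ (fromEdgeSet (ed '' ((insert i acc : Finset I) : Set I))).IsAcyclic then insert i acc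
  else acc

theorem run_sub (P : I → Prop) (L : List I) (acc : Finset I) :
    acc ⊆ L.foldl (st ed P) acc ∧ (∀ i ∈ L.foldl (st ed P) acc, i ∈ acc ∨ (i ∈ L ∧ P i)) ∧
    ((fromEdgeSet (ed '' (acc : Set I))).IsAcyclic →
      (fromEdgeSet (ed '' ((L.foldl (st ed P) acc : Finset I) : Set I))).IsAcyclic) := by
  classical
  induction L generalizing acc with
  | nil => simp
  | cons a L ih =>
    obtain ⟨h1, h2, h3⟩ := ih (st ed P acc a)
    rw [List.foldl_cons]
    by_cases h : P a ∧ (fromEdgeSet (ed '' ((insert a acc : Finset I) : Set I))).IsAcyclic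
    · have e : st ed P acc a = insert a acc := if_pos h
      rw [e] at h1 h2 h3 ⊢
      refine ⟨(subset_insert _ _).trans h1, fun i hi => ?_, fun _ => h3 h.2⟩
      rcases h2 i hi with h4 | h4
      · rcases mem_insert.mp h4 with rfl | h4
        · exact Or.inr ⟨by simp, h.1⟩
        · exact Or.inl h4
      · exact Or.inr ⟨by simp [h4.1], h4.2⟩
    · have e : st ed P acc a = acc := if_neg h
      rw [e] at h1 h2 h3 ⊢
      refine ⟨h1, fun i hi => ?_, h3⟩
      rcases h2 i hi with h4 | h4
      · exact Or.inl h4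
      · exact Or.inr ⟨by simp [h4.1], h4.2⟩

theorem run_rej (P : I → Prop) (L : List I) (rk : I → ℕ) (hL : L.Pairwise (fun a b => rk a ≤ rk b))
    (i : I) (hi : i ∈ L) (hP : P i) (hn : i ∉ L.foldl (st ed P) ∅) (x y : V) (he : ed i = s(x, y)) :
    (fromEdgeSet (ed '' {j | j ∈ L.foldl (st ed P) ∅ ∧ rk j ≤ rk i})).Reachable x y := by
  classical
  obtain ⟨L1, L2, rfl⟩ := List.append_of_mem hi
  rw [List.foldl_append, List.foldl_cons] at hn ⊢
  obtain ⟨-, h2, h3⟩ := run_sub ed P L1 ∅
  have h4 := (run_sub ed P L2 (st ed P (L1.foldl (st ed P) ∅) i)).1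
  by_cases h : P i ∧
      (fromEdgeSet (ed '' ((insert i (L1.foldl (st ed P) ∅) : Finset I) : Set I))).IsAcyclic
  · have e : st ed P (L1.foldl (st ed P) ∅) i = insert i (L1.foldl (st ed P) ∅) := if_pos h
    rw [e] at h4 hn
    exact absurd (h4 (mem_insert_self _ _)) hn
  · have e : st ed P (L1.foldl (st ed P) ∅) i = L1.foldl (st ed P) ∅ := if_neg h
    rw [e] at h4 ⊢
    have h5 : (fromEdgeSet (ed '' ((L1.foldl (st ed P) ∅ : Finset I) : Set I))).Reachable x y := by
      by_contra hc
      exact h ⟨hP, ins_acyclic ed _ i x y he (h3 (by simp)) hc⟩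
    refine h5.mono (fromEdgeSet_mono (Set.image_mono fun j hj => ⟨h4 hj, ?_⟩))
    rcases h2 j hj with h6 | h6
    · simp at h6
    · exact (List.pairwise_append.mp hL).2.2 j h6.1 i (by simp)

end graph

section prob
variable {I : Type} [Fintype I] [DecidableEq I]

noncomputable def ex (p : ℝ) (f : (I → Bool) → ℝ) : ℝ :=
  ∑ ω : I → Bool, (∏ i, if ω i then p else 1 - p) * f ω

noncomputable def ind (i : I) (ω : I → Bool) : ℝ := if ω i then 1 else 0

theorem ex_one (p : ℝ) : ex p (fun _ : I → Bool => 1) = 1 := by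
  have := Finset.prod_univ_sum (fun _ : I => (univ : Finset Bool))
    (fun _ b => if b then p else 1 - p)
  rw [Fintype.piFinset_univ] at this
  simp only [ex, mul_one]
  rw [← this]; simp

theorem ex_mono {p : ℝ} (h0 : 0 ≤ p) (h1 : p ≤ 1) {f g : (I → Bool) → ℝ} (h : ∀ ω, f ω ≤ g ω) :
    ex p f ≤ ex p g :=
  sum_le_sum fun ω _ => mul_le_mul_of_nonneg_left (h ω)
    (prod_nonneg fun i _ => by split_ifs <;> linarith)

theorem ex_add (p : ℝ) (f g : (I → Bool) → ℝ) : ex p (fun ω => f ω + g ω) = ex p f + ex p g := by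
  simp only [ex, mul_add, sum_add_distrib]

theorem ex_sub (p : ℝ) (f g : (I → Bool) → ℝ) : ex p (fun ω => f ω - g ω) = ex p f - ex p g := by
  simp only [ex, mul_sub, sum_sub_distrib]

theorem ex_mul (p c : ℝ) (f : (I → Bool) → ℝ) : ex p (fun ω => c * f ω) = c * ex p f := by
  simp only [ex, mul_sum]; exact sum_congr rfl fun _ _ => by ring

theorem ex_const (p c : ℝ) : ex p (fun _ : I → Bool => c) = c := by
  have := ex_mul p c (fun _ : I → Bool => 1)
  simpa [ex_one] using this

theorem ex_sum {J : Type} (p : ℝ) (s : Finset J) (f : J → (I → Bool) → ℝ) :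
    ex p (fun ω => ∑ j ∈ s, f j ω) = ∑ j ∈ s, ex p (f j) := by
  simp only [ex, mul_sum]; rw [sum_comm]

theorem ex_ind (p : ℝ) (g : (I → Bool) → ℝ) (i : I)
    (hg : ∀ ω b, g (Function.update ω i b) = g ω) :
    ex p (fun ω => g ω * ind i ω) = p * ex p g := by
  let W : (I → Bool) → ℝ := fun ω => ∏ j ∈ univ.erase i, if ω j then p else 1 - p
  have hW : ∀ ω b, W (Function.update ω i b) = W ω := fun ω b =>
    prod_congr rfl fun j hj => by rw [Function.update_of_ne (ne_of_mem_erase hj)]
  have hw : ∀ ω : I → Bool, (∏ j, if ω j then p else 1 - p) = (if ω i then p else 1 - p) * W ω :=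
    fun ω => (mul_prod_erase univ (fun j => if ω j then p else 1 - p) (mem_univ i)).symm
  have hinv : Function.Involutive (fun ω : I → Bool => Function.update ω i (!ω i)) := by
    intro ω; simp
  have hA : ∑ ω : I → Bool, W ω * g ω * ind i ω = ∑ ω : I → Bool, W ω * g ω * (1 - ind i ω) := by
    rw [← Equiv.sum_comp hinv.toPerm]
    apply sum_congr rfl
    intro ω _
    simp only [Function.Involutive.coe_toPerm, hW, hg, ind, Function.update_self]
    cases ω i <;> simp
  have e1 : ex p (fun ω => g ω * ind i ω) = p * ∑ ω : I → Bool, W ω * g ω * ind i ω := by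
    simp only [ex, mul_sum, hw]
    apply sum_congr rfl
    intro ω _
    unfold ind; cases ω i <;> simp [mul_assoc]
  have e2 : ex p g = p * ∑ ω : I → Bool, W ω * g ω * ind i ω +
      (1 - p) * ∑ ω : I → Bool, W ω * g ω * (1 - ind i ω) := by
    simp only [ex, mul_sum, hw, ← sum_add_distrib]
    apply sum_congr rfl
    intro ω _
    unfold ind; cases ω i <;> simp [mul_assoc]
  rw [e1, e2, ← hA]; ring

theorem ex_ind1 (p : ℝ) (i : I) : ex p (ind i) = p := by
  have := ex_ind p (fun _ => 1) i (fun _ _ => rfl)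
  simpa [ex_one] using this

theorem ind_upd {i j : I} (h : i ≠ j) (ω : I → Bool) (b : Bool) :
    ind i (Function.update ω j b) = ind i ω := by
  simp [ind, Function.update_of_ne h]

theorem ex_ind2 (p : ℝ) {i j : I} (h : i ≠ j) : ex p (fun ω => ind i ω * ind j ω) = p * p := by
  rw [ex_ind p (ind i) j (ind_upd h), ex_ind1]

theorem ex_prod {J : Type} [DecidableEq J] (p : ℝ) (r s : J → I) (hr : Function.Injective r)
    (hs : Function.Injective s) (hrs : ∀ a b, r a ≠ s b) (M : Finset J) :
    ex p (fun ω => ∏ v ∈ M, (1 - ind (r v) ω * ind (s v) ω)) = (1 - p * p) ^ M.card := by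
  induction M using Finset.induction_on with
  | empty => simp [ex_one]
  | insert a M ha ih =>
    simp only [prod_insert ha, card_insert_of_notMem ha]
    have h1 : ∀ ω b, (∏ v ∈ M, (1 - ind (r v) (Function.update ω (r a) b) *
        ind (s v) (Function.update ω (r a) b))) = ∏ v ∈ M, (1 - ind (r v) ω * ind (s v) ω) :=
      fun ω b => prod_congr rfl fun v hv => by
        rw [ind_upd (fun e : r v = r a => ha (hr e ▸ hv)), ind_upd (hrs a v).symm]
    have h2 : ∀ ω b, (∏ v ∈ M, (1 - ind (r v) (Function.update ω (s a) b) *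
        ind (s v) (Function.update ω (s a) b))) = ∏ v ∈ M, (1 - ind (r v) ω * ind (s v) ω) :=
      fun ω b => prod_congr rfl fun v hv => by
        rw [ind_upd (hrs v a), ind_upd (fun e : s v = s a => ha (hs e ▸ hv))]
    have h3 := ex_ind p (fun ω => (∏ v ∈ M, (1 - ind (r v) ω * ind (s v) ω)) * ind (r a) ω) (s a)
      (fun ω b => by rw [h2, ind_upd (hrs a a)])
    rw [ex_ind p _ (r a) h1, ih] at h3
    have h4 := ex_sub p (fun ω => ∏ v ∈ M, (1 - ind (r v) ω * ind (s v) ω))
      (fun ω => (∏ v ∈ M, (1 - ind (r v) ω * ind (s v) ω)) * ind (r a) ω * ind (s a) ω)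
    rw [h3, ih] at h4
    rw [pow_succ]
    refine Eq.trans (congrArg (ex p) (funext fun ω => by ring)) (h4.trans (by ring))

end prob

end Pool.Agent.H.MP_8487d8_lc
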