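import Pool.Agent.H.MP_8487d8_lc.A

namespace Pool.Agent.H.MP_8487d8_lc
open Finset SimpleGraph

abbrev Vt (n : ℕ) := Fin 2 ⊕ Fin n ⊕ (Fin n × Fin n)
abbrev It (n : ℕ) := (Fin 3 × Fin n × Fin n) ⊕ (Fin 2 × Fin n)

variable {n : ℕ}

def xk : It n → Vt n
  | .inl a => .inr (.inr a.2)
  | .inr a => .inr (.inl a.2)

def yk : It n → Vt n
  | .inl a => ![.inl 0, .inl 1, .inr (.inl a.2.1)] a.1
  | .inr a => .inl a.1

def edg (i : It n) : Sym2 (Vt n) := s(xk i, yk i)

def lev : Vt n → ℕ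
  | .inl _ => 0
  | .inr (.inl _) => 1
  | .inr (.inr _) => 2

def rk : It n → ℕ
  | .inl a => a.1
  | .inr a => 3 + a.1

theorem lev_lt (i : It n) : lev (yk i) < lev (xk i) := by
  rcases i with ⟨t, g, v⟩ | ⟨t, g⟩
  · fin_cases t <;> simp [xk, yk, lev]
  · simp [xk, yk, lev]

theorem edg_inj : Function.Injective (edg (n := n)) := by
  intro i j h
  rcases Sym2.eq_iff.mp h with ⟨h1, h2⟩ | ⟨h1, h2⟩
  · rcases i with ⟨t, g, v⟩ | ⟨t, g⟩ <;> rcases j with ⟨t', g', v'⟩ | ⟨t', g'⟩ <;>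
      simp only [xk, yk] at h1 h2
    · fin_cases t <;> fin_cases t' <;> simp_all
    · simp at h1
    · simp at h1
    · simp_all
  · have a1 := lev_lt i
    have a2 := lev_lt j
    rw [h1, h2] at a1
    omega

theorem edg_nd (i : It n) : ¬ (edg i).IsDiag := by
  intro h
  have h1 : xk i = yk i := by simpa [edg] using h
  have := lev_lt i
  rw [h1] at this
  omega

theorem at_leaf {j : It n} {g v : Fin n} {w : Vt n} (h : edg j = s(.inr (.inr (g, v)), w)) :
    ∃ t, j = .inl (t, g, v) ∧ w = yk j := by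
  rcases Sym2.eq_iff.mp h with ⟨h1, h2⟩ | ⟨h1, h2⟩
  · rcases j with ⟨t, g', v'⟩ | ⟨t, g'⟩
    · simp only [xk, Sum.inr.injEq, Prod.mk.injEq] at h1
      exact ⟨t, by rw [h1.1, h1.2], h2.symm⟩
    · simp [xk] at h1
  · rcases j with ⟨t, g', v'⟩ | ⟨t, g'⟩
    · fin_cases t <;> simp [yk] at h2
    · simp [yk] at h2

theorem at_hub {j : It n} {g : Fin n} {w : Vt n} (h : edg j = s(.inr (.inl g), w)) :
    (∃ v, j = .inl (2, g, v) ∧ w = .inr (.inr (g, v))) ∨ ∃ t, j = .inr (t, g) := by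
  rcases Sym2.eq_iff.mp h with ⟨h1, h2⟩ | ⟨h1, h2⟩
  · rcases j with ⟨t, g', v'⟩ | ⟨t, g'⟩
    · simp [xk] at h1
    · simp only [xk, Sum.inr.injEq, Sum.inl.injEq] at h1
      exact Or.inr ⟨t, by rw [h1]⟩
  · rcases j with ⟨t, g', v'⟩ | ⟨t, g'⟩
    · left
      fin_cases t <;> simp [yk] at h2
      subst h2
      exact ⟨v', rfl, h1.symm⟩
    · simp [yk] at h2

def cc (F : Finset (It n)) (g v : Fin n) : ℕ := ∑ t : Fin 3, if .inl (t, g, v) ∈ F then 1 else 0
def ee (F : Finset (It n)) (g : Fin n) : ℕ := ∑ v, (cc F g v - 1)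
def hh (F : Finset (It n)) (g : Fin n) : ℕ := ∑ t : Fin 2, if .inr (t, g) ∈ F then 1 else 0

def gad : It n → Fin n
  | .inl a => a.2.1
  | .inr a => a.2

def QQ (F : Finset (It n)) (Gs : Finset (Fin n)) : Vt n → Bool
  | .inl _ => true
  | .inr (.inl g) => decide (g ∈ Gs)
  | .inr (.inr a) => decide (a.1 ∈ Gs ∧ 1 ≤ cc F a.1 a.2)

theorem counting (F : Finset (It n)) (hA : (fromEdgeSet (edg '' (F : Set (It n)))).IsAcyclic)
    (Gs : Finset (Fin n)) : ∑ g ∈ Gs, (ee F g + hh F g) ≤ Gs.card + 1 := by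
  have h := forest_card edg edg_inj edg_nd (F.filter (fun i => gad i ∈ Gs))
    (hA.anti (fromEdgeSet_mono (Set.image_mono (coe_subset.mpr (filter_subset _ _)))))
    (univ.filter (fun x => QQ F Gs x = true)) ⟨.inl 0, by simp [QQ]⟩ (by
      intro i hi x hx
      obtain ⟨h1, h2⟩ := mem_filter.mp hi
      rw [mem_filter]
      refine ⟨mem_univ _, ?_⟩
      rcases i with ⟨t, g, v⟩ | ⟨t, g⟩
      · have h3 : 1 ≤ cc F g v := by
          refine le_trans ?_ (single_le_sum (f := fun t : Fin 3 => if .inl (t, g, v) ∈ F then 1 else 0)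
            (fun _ _ => Nat.zero_le _) (mem_univ t))
          simp [h1]
        rcases Sym2.mem_iff.mp hx with rfl | rfl
        · simpa [xk, QQ, h3, gad] using h2
        · fin_cases t <;> simp [yk, QQ]
          exact h2
      · rcases Sym2.mem_iff.mp hx with rfl | rfl
        · simpa [xk, QQ, gad] using h2
        · simp [yk, QQ])
  have e1 : (F.filter (fun i => gad i ∈ Gs)).card = ∑ g ∈ Gs, (∑ v, cc F g v + hh F g) := by
    have : F.filter (fun i => gad i ∈ Gs) = univ.filter (fun i => gad i ∈ Gs ∧ i ∈ F) := by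
      ext i; simp [and_comm]
    rw [this, card_filter, Fintype.sum_sum_type, Fintype.sum_prod_type_right,
      Fintype.sum_prod_type, Fintype.sum_prod_type_right, ← sum_add_distrib,
      ← sum_ite_mem_eq Gs]
    apply sum_congr rfl
    intro g _
    by_cases hg : g ∈ Gs <;> simp [gad, hg, cc, hh]
  have e2 : (univ.filter (fun x => QQ F Gs x = true)).card =
      2 + (Gs.card + ∑ g ∈ Gs, ∑ v, if 1 ≤ cc F g v then 1 else 0) := by
    rw [card_filter, Fintype.sum_sum_type, Fintype.sum_sum_type, Fintype.sum_prod_type,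
      ← sum_ite_mem_eq Gs]
    congr 1
    congr 1
    · simp [QQ]
    · apply sum_congr rfl
      intro g _
      by_cases hg : g ∈ Gs <;> simp [QQ, hg]
  have e3 : ∑ g ∈ Gs, (∑ v, cc F g v + hh F g) = ∑ g ∈ Gs, (ee F g + hh F g) +
      ∑ g ∈ Gs, ∑ v, if 1 ≤ cc F g v then 1 else 0 := by
    rw [← sum_add_distrib]
    apply sum_congr rfl
    intro g _
    have : ∑ v, cc F g v = ee F g + ∑ v, if 1 ≤ cc F g v then 1 else 0 := by
      rw [ee, ← sum_add_distrib]
      apply sum_congr rfl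
      intro v _
      split_ifs <;> omega
    omega
  omega

section facts
variable (F : Finset (It n)) (P : It n → Prop)
  (hR : ∀ i, P i → i ∉ F →
    (fromEdgeSet (edg '' {j | j ∈ F ∧ rk j ≤ rk i})).Reachable (xk i) (yk i))
include hR

theorem first_mem (t : Fin 3) (g v : Fin n) (hP : P (.inl (t, g, v)))
    (h : ∀ t', t' < t → .inl (t', g, v) ∉ F) : .inl (t, g, v) ∈ F := by
  by_contra hn
  have := closed edg _ {.inr (.inr (g, v))} (by
    intro j hj x y e hx
    have hx' : x = .inr (.inr (g, v)) := hx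
    subst hx'
    obtain ⟨t', rfl, -⟩ := at_leaf e
    have h1 : t'.val ≤ t.val := hj.2
    rcases lt_or_eq_of_le (Fin.le_def.mpr h1) with h2 | h2
    · exact absurd hj.1 (h t' h2)
    · exact absurd (h2 ▸ hj.1) hn) (hR _ hP hn) rfl
  have h2 : yk (.inl (t, g, v)) = xk (.inl (t, g, v)) := this
  have h3 := lev_lt (.inl (t, g, v) : It n)
  rw [h2] at h3
  omega

omit hR in
theorem hub_closed (g : Fin n) (he : ee F g = 0) (A : Set (It n)) (hA : ∀ j ∈ A, j ∈ F)
    (hA' : ∀ t, .inr (t, g) ∉ A) {y : Vt n}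
    (h : (fromEdgeSet (edg '' A)).Reachable (.inr (.inl g)) y) :
    y = .inr (.inl g) ∨ ∃ v, y = .inr (.inr (g, v)) ∧ .inl (2, g, v) ∈ F := by
  refine closed edg A {y | y = .inr (.inl g) ∨ ∃ v, y = .inr (.inr (g, v)) ∧ .inl (2, g, v) ∈ F}
    ?_ h (Or.inl rfl)
  intro j hj x y e hx
  rcases hx with rfl | ⟨v, rfl, hv⟩
  · rcases at_hub e with ⟨v, rfl, rfl⟩ | ⟨t, rfl⟩
    · exact Or.inr ⟨v, rfl, hA _ hj⟩
    · exact absurd hj (hA' t)
  · obtain ⟨t, rfl, rfl⟩ := at_leaf e
    have h1 : cc F g v - 1 = 0 := (sum_eq_zero_iff.mp he) v (mem_univ _)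
    have h2 := hA _ hj
    rw [cc, Fin.sum_univ_three, if_pos hv] at h1
    fin_cases t
    · simp at h2; simp [h2] at h1
    · simp at h2; simp [h2] at h1
    · exact Or.inl rfl

theorem dbl_ee (hP : ∀ i ∈ F, P i) (g v : Fin n) (h0 : ¬ P (.inl (0, g, v)))
    (h1 : P (.inl (1, g, v))) (h2 : P (.inl (2, g, v))) : ee F g ≠ 0 := by
  intro he
  have a1 := first_mem F P hR 1 g v h1 (fun t' ht' hm => by
    have : t' = 0 := by omega
    exact h0 (this ▸ hP _ hm))
  by_cases a2 : .inl (2, g, v) ∈ F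
  · have h3 : cc F g v - 1 = 0 := (sum_eq_zero_iff.mp he) v (mem_univ _)
    rw [cc, Fin.sum_univ_three, if_pos a1, if_pos a2] at h3
    omega
  · have := hub_closed F g he _ (fun j hj => hj.1) (fun t ht => by
      have := ht.2; simp [rk] at this; omega) (hR _ h2 a2).symm
    rcases this with h | ⟨v', h, h'⟩
    · simp [xk] at h
    · simp [xk] at h
      exact a2 (h ▸ h')

theorem det_mem (g : Fin n) (he : ee F g = 0) (h0 : P (.inr (0, g))) : .inr (0, g) ∈ F := by
  by_contra hn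
  have := hub_closed F g he _ (fun j hj => hj.1) (fun t ht => by
    have h1 := ht.2
    simp only [rk] at h1
    have : t = 0 := by omega
    exact hn (this ▸ ht.1)) (hR _ h0 hn)
  rcases this with h | ⟨v', h, h'⟩ <;> simp [yk] at h

end facts


def hi (K W : ℝ) : It n → ℝ
  | .inl a => if a.1 = 0 then 1 else K
  | .inr a => if a.1 = 0 then W else W * K

def lo (W : ℝ) : It n → ℝ
  | .inl a => if a.1 = 0 then 1 else 0
  | .inr a => if a.1 = 0 then W else 0

def XX (K W : ℝ) (ω : It n → Bool) (i : It n) : ℝ := if ω i then hi K W i else lo W i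

theorem X0 (K W : ℝ) (ω : It n → Bool) (a : Fin n × Fin n) : XX K W ω (.inl (0, a)) = 1 := by
  simp [XX, hi, lo]
theorem X1 (K W : ℝ) (ω : It n → Bool) (a : Fin n × Fin n) :
    XX K W ω (.inl (1, a)) = K * ind (.inl (1, a)) ω := by
  simp [XX, hi, lo, ind]
theorem X2 (K W : ℝ) (ω : It n → Bool) (a : Fin n × Fin n) :
    XX K W ω (.inl (2, a)) = K * ind (.inl (2, a)) ω := by
  simp [XX, hi, lo, ind]
theorem X3 (K W : ℝ) (ω : It n → Bool) (g : Fin n) : XX K W ω (.inr (0, g)) = W := by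
  simp [XX, hi, lo]
theorem X4 (K W : ℝ) (ω : It n → Bool) (g : Fin n) :
    XX K W ω (.inr (1, g)) = W * K * ind (.inr (1, g)) ω := by
  simp [XX, hi, lo, ind]

theorem ind01 {I : Type} (i : I) (ω : I → Bool) : 0 ≤ ind i ω ∧ ind i ω ≤ 1 := by
  unfold ind; split_ifs <;> norm_num

open Classical in
noncomputable def YY (K : ℝ) (T : It n → WithTop ℝ) (g v : Fin n) (ω : It n → Bool) : ℝ :=
  if T (.inl (0, g, v)) ≤ (1 : ℝ) then 1 else
    (if T (.inl (1, g, v)) ≤ K then K * ind (.inl (1, g, v)) ω else 0) +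
    (if T (.inl (2, g, v)) ≤ K then K * ind (.inl (2, g, v)) ω else 0)

open Classical in
noncomputable def MM (K : ℝ) (T : It n → WithTop ℝ) (g : Fin n) : Finset (Fin n) :=
  univ.filter fun v => ¬ T (.inl (0, g, v)) ≤ (1 : ℝ) ∧ T (.inl (1, g, v)) ≤ K ∧
    T (.inl (2, g, v)) ≤ K

open Classical in
noncomputable def ZZ (K W : ℝ) (T : It n → WithTop ℝ) (g : Fin n) (ω : It n → Bool) : ℝ :=
  (∏ v ∈ MM K T g, (1 - ind (.inl (1, g, v)) ω * ind (.inl (2, g, v)) ω)) *
    if T (.inr (0, g)) ≤ W then W else W * K * ind (.inr (1, g)) ω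

theorem sum_split (F : Finset (It n)) (f : It n → ℝ) : ∑ i ∈ F, f i =
    ∑ g, (∑ v, ∑ t : Fin 3, (if .inl (t, g, v) ∈ F then f (.inl (t, g, v)) else 0) +
      ∑ t : Fin 2, if .inr (t, g) ∈ F then f (.inr (t, g)) else 0) := by
  rw [← sum_ite_mem_eq F, Fintype.sum_sum_type, Fintype.sum_prod_type_right,
    Fintype.sum_prod_type, Fintype.sum_prod_type_right, ← sum_add_distrib]

theorem pointwise (K W : ℝ) (hK : 1 ≤ K) (hW : 0 ≤ W) (T : It n → WithTop ℝ) (ω : It n → Bool)
    (F : Finset (It n)) (hA : (fromEdgeSet (edg '' (F : Set (It n)))).IsAcyclic)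
    (hP : ∀ i ∈ F, T i ≤ XX K W ω i)
    (hR : ∀ i, T i ≤ XX K W ω i → i ∉ F →
      (fromEdgeSet (edg '' {j | j ∈ F ∧ rk j ≤ rk i})).Reachable (xk i) (yk i)) :
    ∑ i ∈ F, XX K W ω i ≤ ∑ g, (∑ v, YY K T g v ω + ZZ K W T g ω) + (K * (n + 1) + 2 * W * K) := by
  classical
  have leaf : ∀ g v, ∑ t : Fin 3, (if .inl (t, g, v) ∈ F then XX K W ω (.inl (t, g, v)) else 0) ≤
      YY K T g v ω + K * ((cc F g v - 1 : ℕ) : ℝ) := by
    intro g v
    have i1 := ind01 (.inl (1, g, v) : It n) ω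
    have i2 := ind01 (.inl (2, g, v) : It n) ω
    have k1 : K * ind (.inl (1, g, v) : It n) ω ≤ K := by nlinarith
    have k2 : K * ind (.inl (2, g, v) : It n) ω ≤ K := by nlinarith
    have k1' : 0 ≤ K * ind (.inl (1, g, v) : It n) ω := by nlinarith
    have k2' : 0 ≤ K * ind (.inl (2, g, v) : It n) ω := by nlinarith
    rw [Fin.sum_univ_three, X0, X1, X2, YY]
    by_cases h0 : T (.inl (0, g, v)) ≤ (1 : ℝ)
    · have a0 := first_mem F _ hR 0 g v (by rw [X0]; exact h0) (fun t' ht' => absurd ht' (by simp))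
      rw [if_pos h0, if_pos a0, cc, Fin.sum_univ_three, if_pos a0]
      split_ifs <;> norm_num <;> linarith
    · have a0 : .inl (0, g, v) ∉ F := fun h => h0 (by have := hP _ h; rwa [X0] at this)
      rw [if_neg h0, if_neg a0]
      have b1 : (if .inl (1, g, v) ∈ F then K * ind (.inl (1, g, v) : It n) ω else 0) ≤
          if T (.inl (1, g, v)) ≤ K then K * ind (.inl (1, g, v) : It n) ω else 0 := by
        by_cases h : .inl (1, g, v) ∈ F
        · have := hP _ h
          rw [X1] at this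
          rw [if_pos h, if_pos (this.trans (WithTop.coe_le_coe.mpr k1))]
        · rw [if_neg h]; split_ifs <;> linarith
      have b2 : (if .inl (2, g, v) ∈ F then K * ind (.inl (2, g, v) : It n) ω else 0) ≤
          if T (.inl (2, g, v)) ≤ K then K * ind (.inl (2, g, v) : It n) ω else 0 := by
        by_cases h : .inl (2, g, v) ∈ F
        · have := hP _ h
          rw [X2] at this
          rw [if_pos h, if_pos (this.trans (WithTop.coe_le_coe.mpr k2))]
        · rw [if_neg h]; split_ifs <;> linarith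
      have : 0 ≤ K * ((cc F g v - 1 : ℕ) : ℝ) := by positivity
      linarith
  have hub : ∀ g, ∑ t : Fin 2, (if .inr (t, g) ∈ F then XX K W ω (.inr (t, g)) else 0) ≤
      ZZ K W T g ω + if 2 ≤ ee F g + hh F g then 2 * W * K else 0 := by
    intro g
    have i1 := ind01 (.inr (1, g) : It n) ω
    have wk : W ≤ W * K := by nlinarith
    have k1 : W * K * ind (.inr (1, g) : It n) ω ≤ W * K := by nlinarith
    have k1' : 0 ≤ W * K * ind (.inr (1, g) : It n) ω := mul_nonneg (by linarith) i1.1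
    have z0 : 0 ≤ ZZ K W T g ω := by
      refine mul_nonneg (prod_nonneg fun v _ => ?_) (by split_ifs <;> linarith)
      have j1 := ind01 (.inl (1, g, v) : It n) ω
      have j2 := ind01 (.inl (2, g, v) : It n) ω
      nlinarith
    rw [Fin.sum_univ_two, X3, X4]
    by_cases h2 : 2 ≤ ee F g + hh F g
    · rw [if_pos h2]; split_ifs <;> linarith
    rw [if_neg h2, add_zero]
    rw [hh, Fin.sum_univ_two] at h2
    by_cases he : ee F g = 0
    · have hz : (∏ v ∈ MM K T g, (1 - ind (.inl (1, g, v) : It n) ω * ind (.inl (2, g, v)) ω)) = 1 := by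
        apply prod_eq_one
        intro v hv
        obtain ⟨m0, m1, m2⟩ := (mem_filter.mp hv).2
        by_contra hc
        have c1 : ω (.inl (1, g, v)) = true := by
          by_contra h; simp [ind, h] at hc
        have c2 : ω (.inl (2, g, v)) = true := by
          by_contra h; simp [ind, h] at hc
        exact dbl_ee F _ hR hP g v (by rw [X0]; exact m0) (by simpa [X1, ind, c1] using m1)
          (by simpa [X2, ind, c2] using m2) he
      rw [ZZ, hz, one_mul]
      by_cases h0 : T (.inr (0, g)) ≤ W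
      · have a0 := det_mem F _ hR g he (by rw [X3]; exact h0)
        have a1 : .inr (1, g) ∉ F := fun h => by rw [if_pos a0, if_pos h] at h2; omega
        rw [if_pos a0, if_neg a1, if_pos h0, add_zero]
      · have a0 : .inr (0, g) ∉ F := fun h => h0 (by have := hP _ h; rwa [X3] at this)
        rw [if_neg a0, if_neg h0]
        split_ifs <;> linarith
    · have a0 : .inr (0, g) ∉ F := fun h => by rw [if_pos h] at h2; omega
      have a1 : .inr (1, g) ∉ F := fun h => by rw [if_pos h] at h2; omega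
      rw [if_neg a0, if_neg a1]
      linarith
  have c1 := counting F hA univ
  have c2 := counting F hA (univ.filter fun g => 2 ≤ ee F g + hh F g)
  have c3 := card_nsmul_le_sum (univ.filter fun g => 2 ≤ ee F g + hh F g)
    (fun g => ee F g + hh F g) 2 (fun g hg => (mem_filter.mp hg).2)
  rw [smul_eq_mul] at c3
  have c4 : ((univ.filter fun g => 2 ≤ ee F g + hh F g).card : ℝ) ≤ 1 := by
    exact_mod_cast (by omega : (univ.filter fun g => 2 ≤ ee F g + hh F g).card ≤ 1)
  have c5 : ((∑ g, ee F g : ℕ) : ℝ) ≤ n + 1 := by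
    rw [sum_add_distrib, card_univ, Fintype.card_fin] at c1
    exact_mod_cast (by omega : ∑ g, ee F g ≤ n + 1)
  rw [sum_split]
  refine (sum_le_sum fun g _ => add_le_add (sum_le_sum fun v _ => leaf g v) (hub g)).trans ?_
  simp only [sum_add_distrib, ← mul_sum]
  rw [← sum_filter, sum_const, nsmul_eq_mul]
  simp only [ee] at c5
  push_cast at c5
  have d1 := mul_le_mul_of_nonneg_left c5 (show 0 ≤ K by linarith)
  have d2 := mul_le_mul_of_nonneg_right c4 (show 0 ≤ 2 * W * K by positivity)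
  linarith

theorem exY (K : ℝ) (hK : 1 ≤ K) (T : It n → WithTop ℝ) (g v : Fin n) :
    ex K⁻¹ (YY K T g v) ≤ 1 + if v ∈ MM K T g then 1 else 0 := by
  classical
  have hk : K * K⁻¹ = 1 := mul_inv_cancel₀ (by linarith)
  unfold YY
  simp only [MM, mem_filter, mem_univ, true_and]
  by_cases h0 : T (.inl (0, g, v)) ≤ (1 : ℝ)
  · simp only [h0, if_true, ex_const]; simp
  · simp only [h0, if_false, ex_add]
    by_cases h1 : T (.inl (1, g, v)) ≤ K <;> by_cases h2 : T (.inl (2, g, v)) ≤ K <;>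
      simp only [h1, h2, if_true, if_false, ex_mul, ex_const, ex_ind1, hk] <;> simp

theorem exZ (K W : ℝ) (hK : 1 ≤ K) (T : It n → WithTop ℝ) (g : Fin n) :
    ex K⁻¹ (ZZ K W T g) = W * (1 - K⁻¹ * K⁻¹) ^ (MM K T g).card := by
  classical
  have hk : K * K⁻¹ = 1 := mul_inv_cancel₀ (by linarith)
  have h := ex_prod K⁻¹ (fun v => (.inl (1, g, v) : It n)) (fun v => (.inl (2, g, v) : It n))
    (fun a b h => by simpa using h) (fun a b h => by simpa using h) (fun a b => by simp) (MM K T g)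
  unfold ZZ
  by_cases h0 : T (.inr (0, g)) ≤ W
  · simp only [h0, if_true]
    rw [← h, ← ex_mul]
    exact congrArg _ (funext fun ω => mul_comm _ _)
  · simp only [h0, if_false]
    have h1 := ex_ind K⁻¹ (fun ω => ∏ v ∈ MM K T g,
      (1 - ind (.inl (1, g, v) : It n) ω * ind (.inl (2, g, v)) ω)) (.inr (1, g))
      (fun ω b => prod_congr rfl fun v _ => by rw [ind_upd (by simp), ind_upd (by simp)])
    rw [h] at h1
    have h2 := ex_mul K⁻¹ (W * K) (fun ω => (∏ v ∈ MM K T g,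
      (1 - ind (.inl (1, g, v) : It n) ω * ind (.inl (2, g, v)) ω)) * ind (.inr (1, g)) ω)
    rw [h1] at h2
    refine Eq.trans (congrArg _ (funext fun ω => by ring)) (h2.trans ?_)
    linear_combination (W * (1 - K⁻¹ * K⁻¹) ^ (MM K T g).card) * hk

theorem pow_bound (d : ℝ) (h0 : 0 ≤ d) (h1 : d ≤ 1) (m : ℕ) : (1 - d) ^ m * (1 + d * m) ≤ 1 := by
  induction m with
  | zero => simp
  | succ m ih =>
    have : 0 ≤ (1 - d) ^ m := pow_nonneg (by linarith) m
    have h2 : (1 - d) * (1 + d * (m + 1)) ≤ 1 + d * m := by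
      have : 0 ≤ d * d * (m + 1) := by positivity
      nlinarith
    push_cast
    rw [pow_succ, mul_assoc]
    exact (mul_le_mul_of_nonneg_left h2 this).trans ih

theorem exG (K : ℝ) (hK : 1 ≤ K) (T : It n → WithTop ℝ) (g : Fin n) :
    ex K⁻¹ (fun ω => ∑ v, YY K T g v ω + ZZ K n T g ω) ≤ 2 * n + K * K := by
  classical
  have hk : K * K⁻¹ = 1 := mul_inv_cancel₀ (by linarith)
  rw [ex_add, ex_sum, exZ K n hK]
  have h1 := sum_le_sum fun v (_ : v ∈ univ) => exY K hK T g v
  rw [sum_add_distrib, sum_ite_mem_eq, sum_const, sum_const, card_univ, Fintype.card_fin,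
    nsmul_eq_mul, nsmul_eq_mul, mul_one, mul_one] at h1
  have hm : ((MM K T g).card : ℝ) ≤ n := by
    exact_mod_cast (card_le_univ _).trans (le_of_eq (Fintype.card_fin n))
  have i0 : 0 < K⁻¹ := by positivity
  have i1 : K⁻¹ ≤ 1 := inv_le_one_of_one_le₀ hK
  have h2 := pow_bound (K⁻¹ * K⁻¹) (by positivity) (by nlinarith) (MM K T g).card
  generalize ((1 : ℝ) - K⁻¹ * K⁻¹) ^ (MM K T g).card = q at h2 ⊢
  have hm0 : (0 : ℝ) ≤ (MM K T g).card := by positivity
  generalize ((MM K T g).card : ℝ) = m at *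
  have h3 : (n : ℝ) * q ≤ n - m + K * K := by
    have p0 : 0 < 1 + K⁻¹ * K⁻¹ * m := by positivity
    apply le_of_mul_le_mul_right _ p0
    have a1 : (n : ℝ) * q * (1 + K⁻¹ * K⁻¹ * m) ≤ n := by
      have := mul_le_mul_of_nonneg_left h2 (show (0 : ℝ) ≤ n by positivity)
      linarith
    have a2 : K * K * (K⁻¹ * K⁻¹ * m) = m := by
      linear_combination (m * (K * K⁻¹ + 1)) * hk
    have a3 : 0 ≤ (n - m) * (K⁻¹ * K⁻¹ * m) := mul_nonneg (by linarith) (by positivity)
    nlinarith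
  linarith

def best (ω : It n → Bool) : It n → Bool
  | .inl a => decide (a.1 = if ω (.inl (1, a.2)) then 1 else if ω (.inl (2, a.2)) then 2 else 0)
  | .inr a => decide (a.1 = if ω (.inr (1, a.2)) then 1 else 0)

theorem best_acyc (ω : It n → Bool) :
    (fromEdgeSet (edg '' ((univ.filter fun i => best ω i = true : Finset (It n)) : Set (It n)))).IsAcyclic := by
  apply parent_acyclic edg xk yk lev (fun _ => rfl) lev_lt
  intro i hi j hj h
  have hi' := (mem_filter.mp hi).2
  have hj' := (mem_filter.mp hj).2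
  rcases i with ⟨t, a⟩ | ⟨t, g⟩ <;> rcases j with ⟨t', a'⟩ | ⟨t', g'⟩ <;>
    simp only [xk, best, decide_eq_true_eq, Sum.inr.injEq, Sum.inl.injEq, reduceCtorEq] at h hi' hj'
  · subst h; rw [hi', hj']
  · subst h; rw [hi', hj']

theorem exBest (K : ℝ) (hK : 1 ≤ K) : (n : ℝ) * n * (5 - 4 * K⁻¹) ≤
    ex K⁻¹ (fun ω => ∑ i ∈ univ.filter (fun i : It n => best ω i = true), XX K n ω i) := by
  have hk : K * K⁻¹ = 1 := mul_inv_cancel₀ (by linarith)
  have i0 : 0 < K⁻¹ := by positivity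
  have i1 : K⁻¹ ≤ 1 := inv_le_one_of_one_le₀ hK
  refine le_trans (le_of_eq ?_) (ex_mono i0.le i1 (f := fun ω => ∑ g : Fin n, (∑ v : Fin n,
    (1 + (K - 1) * ind (.inl (1, g, v) : It n) ω + (K - 1) * ind (.inl (2, g, v) : It n) ω
      - K * (ind (.inl (1, g, v) : It n) ω * ind (.inl (2, g, v) : It n) ω)) +
      (n + (n * K - n) * ind (.inr (1, g) : It n) ω))) ?_)
  · have e : ∀ g v : Fin n, ex K⁻¹ (fun ω => ind (.inl (1, g, v) : It n) ω *
        ind (.inl (2, g, v) : It n) ω) = K⁻¹ * K⁻¹ := fun g v => ex_ind2 _ (by simp)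
    simp only [ex_sum, ex_add, ex_sub, ex_mul, ex_const, ex_ind1, e, sum_const, card_univ,
      Fintype.card_fin, nsmul_eq_mul]
    linear_combination (-(n : ℝ) * n * (3 - K⁻¹)) * hk
  · intro ω
    rw [sum_split]
    refine sum_le_sum fun g _ => add_le_add (sum_le_sum fun v _ => ?_) ?_
    · rw [Fin.sum_univ_three, X0, X1, X2]
      cases h1 : ω (.inl (1, g, v)) <;> cases h2 : ω (.inl (2, g, v)) <;>
        simp [best, ind, h1, h2]
    · rw [Fin.sum_univ_two, X3, X4]
      cases h1 : ω (.inr (1, g)) <;> simp [best, ind, h1]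

end Pool.Agent.H.MP_8487d8_lc
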